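import Pool.Agent.Helper61.FL2.Prod
import Pool.Agent.Helper54.FL2.Fib

/-!
Project FL2, module V2 (first part): invariance of the Segal condition, criteria for objectwise
equivalences.
-/

open CategoryTheory MonoidalCategory CartesianMonoidalCategory Opposite HomotopicalAlgebra

set_option autoImplicit false

namespace Pool.Agent.Helper61.FL2

open _root_.FL Pool.Agent.Helper54.FL2 Pool.Agent.Helper88.FL

variable {C : Type} [SmallCategory C]

theorem VFib.kanFib_zero {X : SP (Wr C)} (hX : VFib X) (c : C) :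
    KanFib (X.map (vtx (seg c) 0).op) := by
  have h := kanFib_comp (hX.2 c) (fst_kanFib (X := X.obj (op Wr.pt)) (hX.1 (op Wr.pt)))
  have e : ends X c ≫ fst _ _ = X.map (vtx (seg c) 0).op := lift_fst _ _
  rwa [e] at h

theorem VFib.kanFib_one {X : SP (Wr C)} (hX : VFib X) (c : C) :
    KanFib (X.map (vtx (seg c) 1).op) := by
  have h := kanFib_comp (hX.2 c) (snd_kanFib (Y := X.obj (op Wr.pt)) (hX.1 (op Wr.pt)))
  have e : ends X c ≫ snd _ _ = X.map (vtx (seg c) 1).op := lift_snd _ _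
  rwa [e] at h

/-- The target of `binMap` is a Kan complex. -/
theorem VFib.bin_kan {X : SP (Wr C)} (hX : VFib X) {r : ℕ} (c : Fin (r + 1) → C) :
    SSet.KanComplex (Fp (X.map (vtx (init c) (Fin.last r)).op)
      (X.map (vtx (seg (c (Fin.last r))) 0).op)) :=
  Pool.Agent.Helper83.FL4.kan_of_kanFib
    (Fp_fst_kanFib _ _ (VFib.kanFib_zero hX (c (Fin.last r)))) (hX.1 _)

/-- The map between the targets of `binMap`. -/
noncomputable def binFp {X Y : SP (Wr C)} (f : X ⟶ Y) {r : ℕ} (c : Fin (r + 1) → C) :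
    Fp (X.map (vtx (init c) (Fin.last r)).op) (X.map (vtx (seg (c (Fin.last r))) 0).op) ⟶
      Fp (Y.map (vtx (init c) (Fin.last r)).op) (Y.map (vtx (seg (c (Fin.last r))) 0).op) :=
  Fp.map (f.app _) (f.app _) (f.app _) (f.naturality _).symm (f.naturality _).symm

theorem binMap_nat {X Y : SP (Wr C)} (f : X ⟶ Y) {r : ℕ} (c : Fin (r + 1) → C) :
    f.app (op ⟨r + 1, c⟩) ≫ binMap Y c = binMap X c ≫ binFp f c := by
  refine NatTrans.ext (funext fun k => ?_)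
  refine ConcreteCategory.hom_ext _ _ fun z => ?_
  exact Subtype.ext (Prod.ext (hom_nat f (initMap c).op z).symm (hom_nat f (lastMap' c).op z).symm)

theorem binFp_hoEq {X Y : SP (Wr C)} (hX : VFib X) (hY : VFib Y) (f : X ⟶ Y) {r : ℕ}
    (c : Fin (r + 1) → C) (h1 : HoEq (f.app (op (init c))))
    (h2 : HoEq (f.app (op (seg (c (Fin.last r)))))) (h3 : HoEq (f.app (op Wr.pt))) :
    HoEq (binFp f c) :=
  Fp_map_hoEq (hX.1 _) (hY.1 _) (hX.1 _) (hY.1 _) (hX.1 _) (hY.1 _)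
    (VFib.kanFib_zero hX _) (VFib.kanFib_zero hY _) _ _ _ _ _ h1 h2 h3

theorem bSeg_of_objHoEq {X Y : SP (Wr C)} (hX : VFib X) (hY : VFib Y) {f : X ⟶ Y}
    (hf : ObjHoEq f) (h : BSeg X) : BSeg Y := by
  intro r c
  have h1 : HoEq (f.app (op ⟨r + 1, c⟩) ≫ binMap Y c) := by
    rw [binMap_nat]
    exact hoEq_comp (hX.1 _) (VFib.bin_kan hX c) (VFib.bin_kan hY c) (h r c)
      (binFp_hoEq hX hY f c (hf _) (hf _) (hf _))
  exact hoEq_of_comp_left (hX.1 _) (hY.1 _) (VFib.bin_kan hY c) (hf _) h1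

theorem ends_hom {X Y : SP (Wr C)} (f : X ⟶ Y) (c : C) :
    f.app (op (seg c)) ≫ ends Y c = ends X c ≫ (f.app (op Wr.pt) ⊗ₘ f.app (op Wr.pt)) := by
  ext k z
  · exact (hom_nat f (vtx (seg c) 0).op z).symm
  · exact (hom_nat f (vtx (seg c) 1).op z).symm

theorem HmMap_objHoEq {X Y : SP (Wr C)} (hX : VFib X) (hY : VFib Y) {f : X ⟶ Y}
    (hf : ObjHoEq f) (x y : Vt X) : ObjHoEq (HmMap f x y) := by
  intro c
  exact Fb_map_hoEq (hX.2 _) (hY.2 _) (kan_tensor (hX.1 _) (hX.1 _))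
    (kan_tensor (hY.1 _) (hY.1 _)) _ _ (ends_hom f c.unop) (hf _) (hoEq_tensor (hf _) (hf _)) (x, y)

/-- Vertices of a product are connected if their components are. -/
theorem cn_prod {K L : SSet.{0}} {x x' : K.obj (op (SimplexCategory.mk 0))}
    {y y' : L.obj (op (SimplexCategory.mk 0))} (h : Cn K x x') (h' : Cn L y y') :
    Cn (K ⊗ L) ((x, y) : K.obj _ × L.obj _) ((x', y') : K.obj _ × L.obj _) := by
  obtain ⟨e, h1, h2⟩ := h
  obtain ⟨e', h3, h4⟩ := h'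
  exact ⟨((e, e') : K.obj _ × L.obj _), Prod.ext h1 h3, Prod.ext h2 h4⟩

theorem objHoEq_of_Hm {X Y : SP (Wr C)} (hX : VFib X) (hY : VFib Y) (hX' : BSeg X)
    (hY' : BSeg Y) {f : X ⟶ Y} (h0 : HoEq (f.app (op Wr.pt)))
    (O : Set (Vt X)) (hO : ∀ z : Vt X, ∃ x ∈ O, Cn (X.obj (op Wr.pt)) x z)
    (h : ∀ x ∈ O, ∀ y ∈ O, ObjHoEq (HmMap f x y)) : ObjHoEq f := by
  have hseg : ∀ c : C, HoEq (f.app (op (seg c))) := by
    intro c
    refine hoEq_of_fibres (hX.2 c) (hY.2 c) (kan_tensor (hX.1 _) (hX.1 _))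
      (kan_tensor (hY.1 _) (hY.1 _)) (f.app (op (seg c))) (f.app (op Wr.pt) ⊗ₘ f.app (op Wr.pt))
      (ends_hom f c) (hoEq_tensor h0 h0)
      { z : Vt X × Vt X | z.1 ∈ O ∧ z.2 ∈ O } ?_ ?_
    · rintro ⟨x, y⟩
      obtain ⟨x', hx, hx'⟩ := hO x
      obtain ⟨y', hy, hy'⟩ := hO y
      exact ⟨(x', y'), ⟨hx, hy⟩, cn_prod hx' hy'⟩
    · rintro ⟨x, y⟩ ⟨hx, hy⟩
      exact h x hx y hy (op c)
  have key : ∀ (r : ℕ) (c : Fin r → C), HoEq (f.app (op (⟨r, c⟩ : Wr C))) := by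
    intro r
    induction r with
    | zero =>
      intro c
      have e : (⟨0, c⟩ : Wr C) = Wr.pt := congrArg (Wr.mk 0) (Subsingleton.elim _ _)
      rw [e]
      exact h0
    | succ r ih =>
      intro c
      have h1 : HoEq (f.app (op ⟨r + 1, c⟩) ≫ binMap Y c) := by
        rw [binMap_nat]
        exact hoEq_comp (hX.1 _) (VFib.bin_kan hX c) (VFib.bin_kan hY c) (hX' r c)
          (binFp_hoEq hX hY f c (ih _) (hseg _) h0)
      exact hoEq_of_comp_right (hX.1 _) (hY.1 _) (VFib.bin_kan hY c) (hY' r c) h1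
  intro θ
  exact key θ.unop.len θ.unop.obj

end Pool.Agent.Helper61.FL2
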