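import Pool.Agent.Helper61.FL2.BSegB
import Pool.Agent.Helper45.FL2.LocAll

/-!
Project FL2, module V2 (third part): locality with respect to spines is equivalent to the binary
Segal condition.
-/

open CategoryTheory MonoidalCategory CartesianMonoidalCategory Opposite HomotopicalAlgebra

set_option autoImplicit false

namespace Pool.Agent.Helper61.FL2

open _root_.FL Pool.Agent.Helper45.LOC Pool.Agent.Helper88.FL Pool.Agent.Helper46.FLb

noncomputable section

variable {C : Type} [SmallCategory C]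

/-- The mapping space out of the top sub-presheaf of a representable presheaf. -/
def topIso (X : SP (Wr C)) (θ : Wr C) : X.obj (op θ) ≅ Mp (⊤ : Sb (rep θ)).toSP X where
  hom := yoIn X (op θ) ≫ Mp.pre (⊤ : Sb (rep θ)).ι X
  inv :=
    { app := fun k => ↾ fun (φ : MpS (⊤ : Sb (rep θ)).toSP X k.unop) =>
        φ.app (op θ) k (𝟙 _) (⟨(𝟙 θ : θ ⟶ θ), trivial⟩ :
          { x : ((rep θ).obj (op θ)).obj k // x ∈ (⊤ : Sb (rep θ)).mem (op θ) k })
      naturality := fun k l α => by
        refine ConcreteCategory.hom_ext _ _ fun (φ : MpS (⊤ : Sb (rep θ)).toSP X k.unop) => ?_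
        refine Eq.trans ?_ (φ.nat_right (op θ) α (𝟙 _) _)
        show φ.app _ l (𝟙 _ ≫ α.unop) _ = φ.app _ l (α.unop ≫ 𝟙 _) _
        rw [Category.id_comp, Category.comp_id]
        rfl }
  hom_inv_id := by
    refine NatTrans.ext (funext fun k => ?_)
    refine ConcreteCategory.hom_ext _ _ fun x => ?_
    show (X.map (Quiver.Hom.op (𝟙 θ))).app k ((X.obj (op θ)).map (𝟙 k.unop).op x) = x
    exact (congrArg _ (sset_id (X.obj (op θ)) x)).trans (sp_id X x)
  inv_hom_id := by
    refine NatTrans.ext (funext fun k => ?_)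
    refine ConcreteCategory.hom_ext _ _ fun (φ : MpS (⊤ : Sb (rep θ)).toSP X k.unop) => ?_
    refine MpS.ext ?_
    funext η m s x
    obtain ⟨ψ, hψ⟩ := x
    show (X.map (Quiver.Hom.op (show η.unop ⟶ θ from ψ))).app m ((X.obj (op θ)).map s.op
      (φ.app (op θ) k (𝟙 _) _)) = φ.app η m s _
    refine (congrArg ((X.map (Quiver.Hom.op (show η.unop ⟶ θ from ψ))).app m)
      (φ.nat_right (op θ) s.op (𝟙 _) _).symm).trans ?_
    refine (φ.nat_left (Quiver.Hom.op (show η.unop ⟶ θ from ψ)) m (s.op.unop ≫ 𝟙 _) _).symm.trans ?_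
    have e1 : (s.op.unop ≫ 𝟙 k.unop) = s := Category.comp_id s
    rw [e1]
    exact congrArg (φ.app η m s) (Subtype.ext (Category.comp_id (show η.unop ⟶ θ from ψ)))

theorem topIso_ev (X : SP (Wr C)) {r : ℕ} (c : Fin (r + 1) → C) (h : binSb c ≤ ⊤) :
    (topIso X ⟨r + 1, c⟩).hom ≫ Mp.pre (Sb.ofLE h) X ≫ (evBinIso c X).hom = binMap X c := by
  refine NatTrans.ext (funext fun k => ?_)
  refine ConcreteCategory.hom_ext _ _ fun x => ?_
  refine Subtype.ext (Prod.ext ?_ ?_)
  · show (X.map (Quiver.Hom.op (𝟙 (init c) ≫ initMap c))).app k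
      ((X.obj _).map (𝟙 k.unop).op x) = (X.map (initMap c).op).app k x
    rw [Category.id_comp]
    exact congrArg _ (sset_id _ x)
  · show (X.map (Quiver.Hom.op (𝟙 (seg (c (Fin.last r))) ≫ lastMap' c))).app k
      ((X.obj _).map (𝟙 k.unop).op x) = (X.map (lastMap' c).op).app k x
    rw [Category.id_comp]
    exact congrArg _ (sset_id _ x)

theorem locT_bin_iff (X : SP (Wr C)) {r : ℕ} (c : Fin (r + 1) → C) :
    LocT X (binSb c) ⊤ ↔ HoEq (binMap X c) := by
  constructor
  · rintro ⟨h, hl⟩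
    refine hoEq_of_arrow_iso (topIso X ⟨r + 1, c⟩).symm (evBinIso c X) ?_ hl
    rw [Iso.symm_hom, ← topIso_ev X c h, Iso.inv_hom_id_assoc]
  · intro hb
    refine ⟨le_top, ?_⟩
    refine hoEq_of_arrow_iso (topIso X ⟨r + 1, c⟩) (evBinIso c X).symm ?_ hb
    rw [← topIso_ev X c le_top, Iso.symm_hom, Category.assoc, Category.assoc, Iso.hom_inv_id,
      Category.comp_id]

/-- The spine as a sub-presheaf. -/
def spS (θ : Wr C) : Sb (rep θ) where
  mem η _ := fun (φ : η.unop ⟶ θ) => (spine θ).arrows φ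
  mapA := by
    intro η η' f k φ h
    exact (spine θ).downward_closed h f.unop
  mapk := by
    intro η k l α φ h
    exact h

theorem range_sieveIncl (θ : Wr C) : Sb.range (sieveIncl (spine θ)) = spS θ := by
  refine Sb.ext (funext fun η => funext fun k => Set.ext fun φ => ⟨?_, ?_⟩)
  · rintro ⟨y, rfl⟩
    exact y.2
  · intro h
    exact ⟨⟨φ, h⟩, rfl⟩

/-- The sub-presheaf of the representable presheaf of `[r+1](c)` generated by `[r](c)`. -/
def iS {r : ℕ} (c : Fin (r + 1) → C) : Sb (rep (⟨r + 1, c⟩ : Wr C)) where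
  mem η _ := fun (φ : η.unop ⟶ (⟨r + 1, c⟩ : Wr C)) => ∀ t, (Wr.Hom.f φ t).1 ≤ r
  mapA := by
    intro η η' f k φ h t
    exact h _
  mapk := by
    intro η k l α φ h
    exact h

theorem iS_le_range {r : ℕ} (c : Fin (r + 1) → C) : iS c ≤ Sb.range (repMap (initMap c)) := by
  intro η k φ h
  exact ⟨facI c φ h, facI_comp c φ h⟩

theorem iS_comap {r : ℕ} (c : Fin (r + 1) → C) : (iS c).comap (repMap (initMap c)) = ⊤ := by
  refine Sb.ext (funext fun η => funext fun k => Set.ext fun ψ => ⟨fun _ => trivial, fun _ => ?_⟩)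
  intro t
  exact initMap_le c _

theorem spS_sup {r : ℕ} (c : Fin (r + 1) → C) : spS (⟨r + 1, c⟩ : Wr C) ⊔ iS c = binSb c := by
  refine Sb.ext (funext fun η => funext fun k => Set.ext fun (φ : η.unop ⟶ ⟨r + 1, c⟩) => ⟨?_, ?_⟩)
  · rintro ((⟨v, hv⟩ | ⟨i, hi⟩) | h)
    · by_cases hr : v.1 ≤ r
      · exact Or.inl fun t => by rw [hv t]; exact hr
      · exact Or.inr fun t => by rw [hv t]; omega
    · by_cases hr : i.1 < r
      · refine Or.inl fun t => ?_
        rcases hi t with h1 | h1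
        · rw [h1]; exact hr.le
        · rw [h1]; exact hr
      · refine Or.inr fun t => ?_
        rcases hi t with h1 | h1
        · rw [h1]; exact not_lt.mp hr
        · rw [h1]; exact (not_lt.mp hr).trans (Nat.le_succ _)
    · exact Or.inl h
  · rintro (h | h)
    · exact Or.inr h
    · refine Or.inl (Or.inr ⟨Fin.last r, fun t => ?_⟩)
      have h1 := h t
      have h2 : (Wr.Hom.f φ t).1 < r + 1 + 1 := (Wr.Hom.f φ t).2
      by_cases h3 : (Wr.Hom.f φ t).1 = r
      · exact Or.inl (Fin.ext h3)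
      · refine Or.inr (Fin.ext ?_)
        show (Wr.Hom.f φ t).1 = r + 1
        omega

theorem spS_comap {r : ℕ} (c : Fin (r + 1) → C) :
    (spS (⟨r + 1, c⟩ : Wr C) ⊓ iS c).comap (repMap (initMap c)) = spS (init c) := by
  refine Sb.ext (funext fun η => funext fun k => Set.ext fun (ψ : η.unop ⟶ init c) => ⟨?_, ?_⟩)
  · rintro ⟨(⟨v, hv⟩ | ⟨i, hi⟩), -⟩
    · refine Or.inl ⟨Wr.Hom.f ψ 0, fun t => Fin.ext ?_⟩
      have h1 : (Wr.Hom.f ψ t).1 = v.1 := congrArg Fin.val (hv t)
      have h2 : (Wr.Hom.f ψ 0).1 = v.1 := congrArg Fin.val (hv 0)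
      exact h1.trans h2.symm
    · have hi' : ∀ t, (Wr.Hom.f ψ t).1 = i.1 ∨ (Wr.Hom.f ψ t).1 = i.1 + 1 := fun t => by
        rcases hi t with h1 | h1
        · have h3 := congrArg Fin.val h1
          exact Or.inl h3
        · have h3 := congrArg Fin.val h1
          exact Or.inr h3
      by_cases hr : i.1 < r
      · refine Or.inr ⟨⟨i.1, hr⟩, fun t => ?_⟩
        exact (hi' t).imp (fun h => Fin.ext h) fun h => Fin.ext h
      · refine Or.inl ⟨Fin.last r, fun t => Fin.ext ?_⟩
        have h1 : (Wr.Hom.f ψ t).1 < r + 1 := (Wr.Hom.f ψ t).2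
        have h2 := hi' t
        show (Wr.Hom.f ψ t).1 = r
        omega
  · rintro (⟨v, hv⟩ | ⟨i, hi⟩)
    · refine ⟨Or.inl ⟨v.castSucc, fun t => Fin.ext ?_⟩, fun t => initMap_le c _⟩
      have h1 : (Wr.Hom.f ψ t).1 = v.1 := congrArg Fin.val (hv t)
      exact h1
    · refine ⟨Or.inr ⟨i.castSucc, fun t => ?_⟩, fun t => initMap_le c _⟩
      rcases hi t with h1 | h1
      · have h2 : (Wr.Hom.f ψ t).1 = i.1 := congrArg Fin.val h1
        exact Or.inl (Fin.ext h2)
      · have h2 : (Wr.Hom.f ψ t).1 = i.1 + 1 := congrArg Fin.val h1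
        exact Or.inr (Fin.ext h2)

theorem mono_repMap_init {r : ℕ} (c : Fin (r + 1) → C) (a : (Wr C)ᵒᵖ) :
    Mono ((repMap (initMap c)).app a) := by
  have : Mono (initMap c) := ⟨fun _ _ e => initMap_cancel c e⟩
  infer_instance

theorem locT_spS_bin {X : SP (Wr C)} (hX : InjFib X) {r : ℕ} (c : Fin (r + 1) → C)
    (h : LocT X (spS (init c)) ⊤) : LocT X (spS (⟨r + 1, c⟩ : Wr C)) (binSb c) := by
  have h1 : LocT X (spS (⟨r + 1, c⟩ : Wr C) ⊓ iS c) (iS c) := by
    rw [← locT_comap (repMap (initMap c)) (mono_repMap_init c) _ _ inf_le_right (iS_le_range c),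
      spS_comap, iS_comap]
    exact h
  have h2 := locT_push hX h1
  rwa [spS_sup] at h2

theorem spS_zero (c : Fin 0 → C) : spS (⟨0, c⟩ : Wr C) = ⊤ := by
  refine Sb.ext (funext fun η => funext fun k => Set.ext fun (φ : η.unop ⟶ ⟨0, c⟩) =>
    ⟨fun _ => trivial, fun _ => Or.inl ⟨0, fun t => ?_⟩⟩)
  exact Fin.ext (Nat.lt_one_iff.mp (Wr.Hom.f φ t).2)

theorem mono_sieveIncl (θ : Wr C) (a : (Wr C)ᵒᵖ) : Mono ((sieveIncl (spine θ)).app a) := by
  infer_instance

theorem spLoc_iff_spS {X : SP (Wr C)} : SpLoc X ↔ ∀ θ : Wr C, LocT X (spS θ) ⊤ := by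
  refine forall_congr' fun θ => ?_
  rw [loc_iff_range _ (mono_sieveIncl θ), range_sieveIncl]

theorem spLoc_iff {X : SP (Wr C)} (hX : InjFib X) : SpLoc X ↔ BSeg X := by
  rw [spLoc_iff_spS]
  constructor
  · intro h r c
    exact (locT_bin_iff X c).mp (locT_cancel hX (locT_spS_bin hX c (h _)) (h _) le_top)
  · intro h
    have key : ∀ (r : ℕ) (c : Fin r → C), LocT X (spS (⟨r, c⟩ : Wr C)) ⊤ := by
      intro r
      induction r with
      | zero =>
        intro c
        rw [spS_zero]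
        exact locT_refl _
      | succ r ih =>
        intro c
        exact locT_trans hX (locT_spS_bin hX c (ih _)) ((locT_bin_iff X c).mpr (h r c))
    intro θ
    exact key θ.len θ.obj

end

end Pool.Agent.Helper61.FL2
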