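import Pool.Agent.Helper61.FL2.BSegA
import Pool.Agent.Helper53.FL2.HmAdj
import Pool.Agent.Helper91.FL2.Path

/-!
Project FL2, module D1: calculus of essentially surjective, fully faithful maps.
-/

open CategoryTheory MonoidalCategory CartesianMonoidalCategory Opposite HomotopicalAlgebra

set_option autoImplicit false

namespace Pool.Agent.Helper61.FL2

open _root_.FL

/-! ### Isomorphisms and mapping presheaves -/

section

variable {C : Type} [SmallCategory C]

theorem fb_map_bij {E B E' B' : SSet.{0}} {p : E ⟶ B} {p' : E' ⟶ B'} (f : E ⟶ E') (g : B ⟶ B')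
    (w : f ≫ p' = p ≫ g) (b : B.obj (op (SimplexCategory.mk 0)))
    (hf : ∀ k, Function.Bijective (f.app k)) (hg : ∀ k, Function.Injective (g.app k))
    (k : SimplexCategoryᵒᵖ) : Function.Bijective ((Fb.map f g w b).app k) := by
  constructor
  · intro z z' h
    exact Subtype.ext ((hf k).1 (congrArg Subtype.val h))
  · intro z'
    obtain ⟨z, hz⟩ := (hf k).2 z'.1
    refine ⟨⟨z, (hg k) ?_⟩, Subtype.ext hz⟩
    have e := ConcreteCategory.congr_hom (NatTrans.congr_app w k) z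
    refine Eq.trans e.symm ?_
    rw [app_cst]
    refine Eq.trans ?_ z'.2
    exact congrArg (p'.app k) hz

theorem isIso_of_bij {A : Type} [SmallCategory A] {X Y : SP A} (f : X ⟶ Y)
    (h : ∀ a k, Function.Bijective ((f.app a).app k)) : IsIso f := by
  rw [NatTrans.isIso_iff_isIso_app]
  intro a
  rw [NatTrans.isIso_iff_isIso_app]
  intro k
  rw [isIso_iff_bijective]
  exact h a k

theorem bij_of_isIso {A : Type} [SmallCategory A] {X Y : SP A} (f : X ⟶ Y) [IsIso f]
    (a : Aᵒᵖ) (k : SimplexCategoryᵒᵖ) : Function.Bijective ((f.app a).app k) := by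
  rw [← isIso_iff_bijective]
  infer_instance

theorem HmMap_isIso {X Y : SP (Wr C)} (f : X ⟶ Y) (hf : IsIso f) (x y : Vt X) :
    IsIso (HmMap f x y) := by
  refine isIso_of_bij _ fun c k => ?_
  refine fb_map_bij _ _ (ends_hom f c.unop) _ (fun l => bij_of_isIso f _ l) (fun l => ?_) k
  rintro ⟨a, b⟩ ⟨a', b'⟩ h
  exact Prod.ext ((bij_of_isIso f _ l).1 (congrArg Prod.fst h))
    ((bij_of_isIso f _ l).1 (congrArg Prod.snd h))

end

section

variable {n : ℕ}

theorem ES_iso_comp : ∀ (n i : ℕ) {X Y Z : SP (Th n)} (e : X ⟶ Y) (_ : IsIso e) (f : Y ⟶ Z),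
    ES n i f → ES n i (e ≫ f) := by
  intro n
  induction n with
  | zero =>
    intro i X Y Z e he f hf
    refine Pool.Agent.Helper88.FL.hoEq_of_arrow_iso (f := f.app (op (ptT 0)))
      (f' := (e ≫ f).app (op (ptT 0))) (asIso (e.app (op (ptT 0)))).symm (Iso.refl _) ?_ hf
    simp
  | succ n ih =>
    intro i X Y Z e he f hf
    cases i with
    | zero =>
      refine Pool.Agent.Helper88.FL.hoEq_of_arrow_iso (f := f.app (op (ptT (n + 1))))
        (f' := (e ≫ f).app (op (ptT (n + 1)))) (asIso (e.app (op (ptT (n + 1))))).symm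
          (Iso.refl _) ?_ hf
      simp
    | succ i =>
      obtain ⟨h1, h2⟩ := hf
      refine ⟨fun z => ?_, fun x y => ?_⟩
      · obtain ⟨y, hy⟩ := h1 z
        obtain ⟨x, rfl⟩ := (bij_of_isIso e (op (ptT (n + 1))) (op (SimplexCategory.mk 0))).2 y
        exact ⟨x, hy⟩
      · exact ih i (HmMap (C := Th n) e x y) (HmMap_isIso (C := Th n) e he x y) _ (h2 _ _)

theorem ES_of_comp_iso : ∀ (n i : ℕ) {X Y Z : SP (Th n)} (f : X ⟶ Y) (e : Y ⟶ Z) (_ : IsIso e),
    ES n i (f ≫ e) → ES n i f := by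
  intro n
  induction n with
  | zero =>
    intro i X Y Z f e he hf
    refine Pool.Agent.Helper88.FL.hoEq_of_arrow_iso (f := (f ≫ e).app (op (ptT 0)))
      (f' := f.app (op (ptT 0))) (Iso.refl _) (asIso (e.app (op (ptT 0)))).symm ?_ hf
    simp
  | succ n ih =>
    intro i X Y Z f e he hf
    cases i with
    | zero =>
      refine Pool.Agent.Helper88.FL.hoEq_of_arrow_iso (f := (f ≫ e).app (op (ptT (n + 1))))
        (f' := f.app (op (ptT (n + 1)))) (Iso.refl _)
          (asIso (e.app (op (ptT (n + 1))))).symm ?_ hf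
      simp
    | succ i =>
      obtain ⟨h1, h2⟩ := hf
      refine ⟨fun y => ?_, fun x y => ?_⟩
      · obtain ⟨x, hx⟩ := h1 (vtMap (C := Th n) e y)
        refine ⟨x, ?_⟩
        have h3 := Pool.Agent.Helper91.FL2.cn_map ((inv e).app (op (ptT (n + 1)))) hx
        have h4 : ∀ w : Vt (C := Th n) Y, ((inv e).app (op (ptT (n + 1)))).app
            (op (SimplexCategory.mk 0)) (vtMap (C := Th n) e w) = w := by
          intro w
          have h5 : (e ≫ inv e) = 𝟙 Y := IsIso.hom_inv_id e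
          exact ConcreteCategory.congr_hom (NatTrans.congr_app (NatTrans.congr_app h5
            (op (ptT (n + 1)))) (op (SimplexCategory.mk 0))) w
        have h6 := h4 (vtMap (C := Th n) f x)
        have h7 := h4 y
        exact (congrArg₂ (Cn (Y.obj (op (ptT (n + 1))))) h6 h7).mp h3
      · exact ih i (HmMap (C := Th n) f x y) (HmMap (C := Th n) e _ _)
          (HmMap_isIso (C := Th n) e he _ _) (h2 x y)

theorem ES_of_arrow_iso {i : ℕ} {X Y X' Y' : SP (Th n)} {f : X ⟶ Y} {f' : X' ⟶ Y'}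
    (e : X ≅ X') (e' : Y ≅ Y') (h : f ≫ e'.hom = e.hom ≫ f') (hf : ES n i f) : ES n i f' := by
  have h1 : ES n i (e.inv ≫ f) := ES_iso_comp n i e.inv inferInstance f hf
  have h2 : e.inv ≫ f = f' ≫ e'.inv := by
    rw [Iso.inv_comp_eq, ← Category.assoc, ← h, Category.assoc, Iso.hom_inv_id, Category.comp_id]
  rw [h2] at h1
  exact ES_of_comp_iso n i f' e'.inv inferInstance h1

/-! ### Composition -/

theorem kanPt {X : SP (Th n)} (hX : InjFib X) (a : (Th n)ᵒᵖ) : SSet.KanComplex (X.obj a) :=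
  Pool.Agent.Helper91.FL2.objKan_of_injFib hX a

theorem ES_comp' : ∀ (n i : ℕ) {X Y Z : SP (Th n)} (_ : InjFib X) (_ : InjFib Y) (_ : InjFib Z)
    (f : X ⟶ Y) (g : Y ⟶ Z), ES n i f → ES n i g → ES n i (f ≫ g) := by
  intro n
  induction n with
  | zero =>
    intro i X Y Z hX hY hZ f g hf hg
    exact Pool.Agent.Helper88.FL.hoEq_comp (kanPt hX _) (kanPt hY _) (kanPt hZ _) hf hg
  | succ n ih =>
    intro i X Y Z hX hY hZ f g hf hg
    cases i with
    | zero => exact Pool.Agent.Helper88.FL.hoEq_comp (kanPt hX _) (kanPt hY _) (kanPt hZ _) hf hg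
    | succ i =>
      obtain ⟨h1, h2⟩ := hf
      obtain ⟨h3, h4⟩ := hg
      refine ⟨fun z => ?_, fun x y => ?_⟩
      · obtain ⟨y, hy⟩ := h3 z
        obtain ⟨x, hx⟩ := h1 y
        exact ⟨x, Pool.Agent.Helper91.FL2.cn_trans (kanPt hZ _)
          (Pool.Agent.Helper91.FL2.cn_map (g.app (op (ptT (n + 1)))) hx) hy⟩
      · exact ih i (Helper53FL2.Hm_injFib hX x y) (Helper53FL2.Hm_injFib hY _ _)
          (Helper53FL2.Hm_injFib hZ _ _) (HmMap (C := Th n) f x y) (HmMap (C := Th n) g _ _)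
          (h2 x y) (h4 _ _)

theorem ES_comp {X Y Z : SP (Th n)} (hY : InjFib Y) (hZ : InjFib Z) {f : X ⟶ Y} {g : Y ⟶ Z}
    (hX : InjFib X) (hf : ES n n f) (hg : ES n n g) : ES n n (f ≫ g) :=
  ES_comp' n n hX hY hZ f g hf hg

theorem cn_of_hoEq_surj {K L : SSet.{0}} {f : K ⟶ L} (hf : HoEq f)
    (y : L.obj (op (SimplexCategory.mk 0))) :
    ∃ x, Cn L (f.app _ x) y := by
  obtain ⟨g, -, h2⟩ := hf
  exact ⟨g.app _ y, Pool.Agent.Helper91.FL2.cn_of_htpy h2 y⟩

theorem ES_of_objHoEq' : ∀ (n i : ℕ) {X Y : SP (Th n)} (_ : InjFib X) (_ : InjFib Y)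
    (f : X ⟶ Y), ObjHoEq f → ES n i f := by
  intro n
  induction n with
  | zero => intro i X Y hX hY f hf; exact hf _
  | succ n ih =>
    intro i X Y hX hY f hf
    cases i with
    | zero => exact hf _
    | succ i =>
      refine ⟨fun y => cn_of_hoEq_surj (hf (op (ptT (n + 1)))) y, fun x y => ?_⟩
      exact ih i (Helper53FL2.Hm_injFib hX x y) (Helper53FL2.Hm_injFib hY _ _) _
        (HmMap_objHoEq (Helper53FL2.InjFib.vfib hX) (Helper53FL2.InjFib.vfib hY) hf x y)

theorem ES_of_objHoEq {X Y : SP (Th n)} (hX : InjFib X) (hY : InjFib Y) {f : X ⟶ Y}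
    (hf : ObjHoEq f) : ES n n f := ES_of_objHoEq' n n hX hY f hf

theorem ES_of_comp_right' : ∀ (n i : ℕ) {X Y Z : SP (Th n)} (_ : InjFib X) (_ : InjFib Y)
    (_ : InjFib Z) (f : X ⟶ Y) (g : Y ⟶ Z), ObjHoEq g → ES n i (f ≫ g) → ES n i f := by
  intro n
  induction n with
  | zero =>
    intro i X Y Z hX hY hZ f g hg hfg
    exact Pool.Agent.Helper88.FL.hoEq_of_comp_right (kanPt hX _) (kanPt hY _) (kanPt hZ _)
      (hg _) hfg
  | succ n ih =>
    intro i X Y Z hX hY hZ f g hg hfg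
    cases i with
    | zero =>
      exact Pool.Agent.Helper88.FL.hoEq_of_comp_right (kanPt hX _) (kanPt hY _) (kanPt hZ _)
        (hg _) hfg
    | succ i =>
      obtain ⟨h1, h2⟩ := hfg
      refine ⟨fun y => ?_, fun x y => ?_⟩
      · obtain ⟨x, hx⟩ := h1 (vtMap (C := Th n) g y)
        exact ⟨x, Pool.Agent.Helper91.FL2.cn_of_hoEq (kanPt hY _) (hg (op (ptT (n + 1)))) hx⟩
      · exact ih i (Helper53FL2.Hm_injFib hX x y) (Helper53FL2.Hm_injFib hY _ _)
          (Helper53FL2.Hm_injFib hZ _ _) (HmMap (C := Th n) f x y) (HmMap (C := Th n) g _ _)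
          (HmMap_objHoEq (Helper53FL2.InjFib.vfib hY) (Helper53FL2.InjFib.vfib hZ) hg _ _)
          (h2 x y)

theorem ES_of_comp_right {X Y Z : SP (Th n)} (hX : InjFib X) (hY : InjFib Y) (hZ : InjFib Z)
    {f : X ⟶ Y} {g : Y ⟶ Z} (hg : ObjHoEq g) (hfg : ES n n (f ≫ g)) : ES n n f :=
  ES_of_comp_right' n n hX hY hZ f g hg hfg

/-! ### Homotopy invariance -/

/-- The property `ES` is invariant under homotopies. -/
theorem ES_of_homotopy (i : ℕ) {X Y : SP (Th n)} (hX : InjFib X) (hY : InjFib Y)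
    {f g : X ⟶ Y} (h : ∃ h : MpS X Y (SimplexCategory.mk 1),
      h.res (SimplexCategory.δ 1) = MpS.ofHom _ f ∧ h.res (SimplexCategory.δ 0) = MpS.ofHom _ g)
    (hf : ES n i f) : ES n i g := by
  obtain ⟨P, s, e₀, e₁, -, -, hP, -, h₀, h₁, hH⟩ := Pool.Agent.Helper91.FL2.exists_path Y hY
  obtain ⟨H, rfl, rfl⟩ := hH f g h
  have h3 : ES n i H := ES_of_comp_right' n i hX hP hY H e₀
    (Pool.Agent.Helper91.FL2.InjTrivFibration.objHoEq h₀) hf
  exact ES_comp' n i hX hP hY H e₁ h3 (ES_of_objHoEq' n i hP hY e₁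
    (Pool.Agent.Helper91.FL2.InjTrivFibration.objHoEq h₁))

theorem surj_of_injTriv {A : Type} [SmallCategory A] {X Y : SP A} {p : X ⟶ Y}
    (hp : InjTrivFibration p) (a : Aᵒᵖ) (k : SimplexCategoryᵒᵖ) :
    Function.Surjective ((p.app a).app k) := by
  have h0 := Pool.Agent.Helper91.FL2.InjTrivFibration.app_trivFib hp a
  have h1 := Pool.Agent.Helper45.FL2.TrivFib.lift h0 (⊥ : (Y.obj a).Subcomplex).ι
  have sq : CommSq (SSet.Subcomplex.isInitialBot.to (X.obj a)) (⊥ : (Y.obj a).Subcomplex).ι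
      (p.app a) (𝟙 (Y.obj a)) := ⟨SSet.Subcomplex.isInitialBot.hom_ext _ _⟩
  intro y
  exact ⟨sq.lift.app k y, ConcreteCategory.congr_hom (NatTrans.congr_app sq.fac_right k) y⟩

/-- Cancellation of trivial injective fibrations. -/
theorem ES_of_injTriv_comp : ∀ (n i : ℕ) {P X Y : SP (Th n)} (_ : InjFib P) (_ : InjFib X)
    (_ : InjFib Y) (p : P ⟶ X) (f : X ⟶ Y), InjTrivFibration p → ES n i (p ≫ f) →
    ES n i f := by
  intro n
  induction n with
  | zero =>
    intro i P X Y hP hX hY p f hp hf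
    exact Pool.Agent.Helper88.FL.hoEq_of_comp_left (kanPt hP _) (kanPt hX _) (kanPt hY _)
      (Pool.Agent.Helper91.FL2.InjTrivFibration.objHoEq hp _) hf
  | succ n ih =>
    intro i P X Y hP hX hY p f hp hf
    cases i with
    | zero =>
      exact Pool.Agent.Helper88.FL.hoEq_of_comp_left (kanPt hP _) (kanPt hX _) (kanPt hY _)
        (Pool.Agent.Helper91.FL2.InjTrivFibration.objHoEq hp _) hf
    | succ i =>
      obtain ⟨h1, h2⟩ := hf
      refine ⟨fun y => ?_, fun x y => ?_⟩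
      · obtain ⟨z, hz⟩ := h1 y
        exact ⟨vtMap (C := Th n) p z, hz⟩
      · obtain ⟨z, rfl⟩ := surj_of_injTriv hp (op (ptT (n + 1))) (op (SimplexCategory.mk 0)) x
        obtain ⟨w, rfl⟩ := surj_of_injTriv hp (op (ptT (n + 1))) (op (SimplexCategory.mk 0)) y
        exact ih i (Helper53FL2.Hm_injFib hP z w) (Helper53FL2.Hm_injFib hX _ _)
          (Helper53FL2.Hm_injFib hY _ _) (HmMap (C := Th n) p z w) (HmMap (C := Th n) f _ _)
          (Helper53FL2.HmMap_injTrivFibration hp z w) (h2 z w)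

theorem homotopy_post {A : Type} [SmallCategory A] {X Y Z : SP A} {f g : X ⟶ Y}
    (h : ∃ h : MpS X Y (SimplexCategory.mk 1),
      h.res (SimplexCategory.δ 1) = MpS.ofHom _ f ∧ h.res (SimplexCategory.δ 0) = MpS.ofHom _ g)
    (k : Y ⟶ Z) : ∃ h : MpS X Z (SimplexCategory.mk 1),
      h.res (SimplexCategory.δ 1) = MpS.ofHom _ (f ≫ k) ∧
      h.res (SimplexCategory.δ 0) = MpS.ofHom _ (g ≫ k) := by
  obtain ⟨h, h0, h1⟩ := h
  refine ⟨h.comp (MpS.ofHom _ k), ?_, ?_⟩
  · exact congrArg (fun t => MpS.comp t (MpS.ofHom _ k)) h0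
  · exact congrArg (fun t => MpS.comp t (MpS.ofHom _ k)) h1

/-- Cancellation of objectwise equivalences on the left. -/
theorem ES_of_objHoEq_comp (i : ℕ) {X X' Y : SP (Th n)} (hX : InjFib X) (hX' : InjFib X')
    (hY : InjFib Y) {e : X' ⟶ X} {f : X ⟶ Y} (he : ObjHoEq e) (hf : ES n i (e ≫ f)) :
    ES n i f := by
  obtain ⟨P, s, r, q, hP, hsq, -, hs, hr, hq, hh, -⟩ :=
    Pool.Agent.Helper91.FL2.exists_mapping_path hX' hX e
  have hqe : ObjHoEq q := fun a => by
    have h1 : HoEq (s.app a ≫ q.app a) := by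
      have h2 : s.app a ≫ q.app a = e.app a := by rw [← hsq]; rfl
      rw [h2]; exact he a
    exact Pool.Agent.Helper88.FL.hoEq_of_comp_left (kanPt hX' a) (kanPt hP a) (kanPt hX a)
      (hs a) h1
  have hqt := Pool.Agent.Helper91.FL2.injTrivFibration_of hP hX hq hqe
  have h3 : ES n i (r ≫ e ≫ f) := ES_comp' n i hP hX' hY r (e ≫ f)
    (ES_of_objHoEq' n i hP hX' r (Pool.Agent.Helper91.FL2.InjTrivFibration.objHoEq hr)) hf
  rw [← Category.assoc] at h3
  exact ES_of_injTriv_comp n i hP hX hY q f hqt (ES_of_homotopy i hP hY (homotopy_post hh f) h3)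

/-! ### Cancellation on the left -/

theorem ES_of_comp_left' : ∀ (n i : ℕ) {X Y Z : SP (Th n)} (_ : InjFib X) (_ : InjFib Y)
    (_ : InjFib Z) (f : X ⟶ Y) (g : Y ⟶ Z), ES n i f → ES n i (f ≫ g) → ES n i g := by
  intro n
  induction n with
  | zero =>
    intro i X Y Z hX hY hZ f g hf hfg
    exact Pool.Agent.Helper88.FL.hoEq_of_comp_left (kanPt hX _) (kanPt hY _) (kanPt hZ _) hf hfg
  | succ n ih =>
    intro i X Y Z hX hY hZ f g hf hfg
    cases i with
    | zero =>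
      exact Pool.Agent.Helper88.FL.hoEq_of_comp_left (kanPt hX _) (kanPt hY _) (kanPt hZ _)
        hf hfg
    | succ i =>
      obtain ⟨P, s, r, q, hP, -, -, -, hr, -, hh, hq⟩ :=
        Pool.Agent.Helper91.FL2.exists_mapping_path hX hY f
      have hrE : ES (n + 1) (i + 1) r := ES_of_objHoEq' (n + 1) (i + 1) hP hX r
        (Pool.Agent.Helper91.FL2.InjTrivFibration.objHoEq hr)
      have h1 : ES (n + 1) (i + 1) q := ES_of_homotopy (i + 1) hP hY hh
        (ES_comp' (n + 1) (i + 1) hP hX hY r f hrE hf)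
      have h2 : ES (n + 1) (i + 1) (q ≫ g) :=
        ES_of_homotopy (i + 1) hP hZ (homotopy_post hh g) (by
          rw [Category.assoc]
          exact ES_comp' (n + 1) (i + 1) hP hX hZ r (f ≫ g) hrE hfg)
      refine ⟨fun z => ?_, fun y y' => ?_⟩
      · obtain ⟨x, hx⟩ := hfg.1 z
        exact ⟨vtMap (C := Th n) f x, hx⟩
      · obtain ⟨x, hx⟩ := hf.1 y
        obtain ⟨x', hx'⟩ := hf.1 y'
        obtain ⟨z, rfl⟩ := hq (op (ptT (n + 1))) x y hx
        obtain ⟨z', rfl⟩ := hq (op (ptT (n + 1))) x' y' hx'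
        exact ih i (Helper53FL2.Hm_injFib hP z z') (Helper53FL2.Hm_injFib hY _ _)
          (Helper53FL2.Hm_injFib hZ _ _) (HmMap (C := Th n) q z z') (HmMap (C := Th n) g _ _)
          (h1.2 z z') (h2.2 z z')

theorem ES_of_comp_left {X Y Z : SP (Th n)} (hX : InjFib X) (hY : InjFib Y) (hZ : InjFib Z)
    {f : X ⟶ Y} {g : Y ⟶ Z} (hf : ES n n f) (hfg : ES n n (f ≫ g)) : ES n n g :=
  ES_of_comp_left' n n hX hY hZ f g hf hfg

end

end Pool.Agent.Helper61.FL2
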