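import Pool.Agent.Helper61.FL2.Prod
import Pool.Agent.Helper54.FL2.Fib

/-!
Project FL2, module V2 (second part): locality with respect to spines and the binary Segal
condition.
-/

open CategoryTheory MonoidalCategory CartesianMonoidalCategory Opposite HomotopicalAlgebra

set_option autoImplicit false

namespace Pool.Agent.Helper61.FL2

open _root_.FL Pool.Agent.Helper88.FL

noncomputable section

variable {C : Type} [SmallCategory C]

theorem g_congr {X Y : Wr C} {φ ψ : X ⟶ Y} (e : φ = ψ) {i : Fin X.len} {j : Fin Y.len}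
    (h : Jump (Wr.Hom.f φ) i j) (h' : Jump (Wr.Hom.f ψ) i j) :
    Wr.Hom.g φ i j h = Wr.Hom.g ψ i j h' := by
  subst e
  rfl

/-- Constant monotone maps have no jumps. -/
theorem no_jump {a b : ℕ} {f : Fin (a + 1) →o Fin (b + 1)} {v : Fin (b + 1)}
    (hf : ∀ t, f t = v) {i : Fin a} {j : Fin b} (h : Jump f i j) : False := by
  have h1 := h.1
  have h2 := h.2
  rw [hf] at h1 h2
  have := h2.trans h1
  rw [Fin.le_def] at this
  simp at this

theorem hom_of_const {X Y : Wr C} {φ ψ : X ⟶ Y} {v : Fin (Y.len + 1)}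
    (h : ∀ t, Wr.Hom.f φ t = v) (h' : ∀ t, Wr.Hom.f ψ t = v) : φ = ψ := by
  refine Wr.hom_ext' ?_ fun i j hj _ => (no_jump h hj).elim
  ext t : 2
  rw [h, h']

section Init

variable {r : ℕ} (c : Fin (r + 1) → C)

/-- Factorisation through `initMap`. -/
def facI {η : Wr C} (φ : η ⟶ (⟨r + 1, c⟩ : Wr C)) (h : ∀ t, (Wr.Hom.f φ t).1 ≤ r) :
    η ⟶ init c :=
  ({ f := ⟨fun t => ⟨(Wr.Hom.f φ t).1, Nat.lt_succ_of_le (h t)⟩,
       fun _ _ hst => (Wr.Hom.f φ).monotone hst⟩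
     g := fun (i : Fin η.len) (j : Fin r) hj => Wr.Hom.g φ i j.castSucc ⟨hj.1, hj.2⟩ } :
    Wr.Hom η (init c))

theorem facI_comp {η : Wr C} (φ : η ⟶ (⟨r + 1, c⟩ : Wr C)) (h : ∀ t, (Wr.Hom.f φ t).1 ≤ r) :
    facI c φ h ≫ initMap c = φ := by
  refine Wr.hom_ext' rfl fun i (j : Fin (r + 1)) hj hj' => ?_
  obtain ⟨j0, rfl⟩ : ∃ j0 : Fin r, j = j0.castSucc := by
    have h1 : j.1 + 1 ≤ (Wr.Hom.f φ i.succ).1 := hj'.2
    have h2 := h i.succ
    exact ⟨⟨j.1, by omega⟩, rfl⟩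
  have h1 : Jump (Wr.Hom.f (facI c φ h)) i j0 := ⟨hj'.1, hj'.2⟩
  have h2 : Jump (Wr.Hom.f (initMap c)) j0 j0.castSucc := ⟨le_refl _, le_refl _⟩
  refine (Wr.comp_g (facI c φ h) (initMap c) h1 h2).trans ?_
  exact Category.comp_id _

theorem initMap_cancel {η : Wr C} {ψ ψ' : η ⟶ init c} (e : ψ ≫ initMap c = ψ' ≫ initMap c) :
    ψ = ψ' := by
  have hf : Wr.Hom.f ψ = Wr.Hom.f ψ' := by
    ext t : 2
    have h1 : (Wr.Hom.f (ψ ≫ initMap c) t).1 = (Wr.Hom.f (ψ' ≫ initMap c) t).1 := by rw [e]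
    exact Fin.ext h1
  refine Wr.hom_ext' hf fun i (j : Fin r) hj hj' => ?_
  have h2 : Jump (Wr.Hom.f (initMap c)) j j.castSucc := ⟨le_refl _, le_refl _⟩
  have e1 := Wr.comp_g ψ (initMap c) hj h2
  have e2 := Wr.comp_g ψ' (initMap c) hj' h2
  have e3 := g_congr e (hj.comp h2) (hj'.comp h2)
  have a1 : Wr.Hom.g ψ i j hj ≫ Wr.Hom.g (initMap c) j j.castSucc h2 = Wr.Hom.g ψ i j hj :=
    Category.comp_id _
  have a2 : Wr.Hom.g ψ' i j hj' ≫ Wr.Hom.g (initMap c) j j.castSucc h2 = Wr.Hom.g ψ' i j hj' :=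
    Category.comp_id _
  rw [a1] at e1
  rw [a2] at e2
  exact e1.symm.trans (e3.trans e2)

/-- Factorisation through `lastMap'`. -/
def facL {η : Wr C} (φ : η ⟶ (⟨r + 1, c⟩ : Wr C)) (h : ∀ t, r ≤ (Wr.Hom.f φ t).1) :
    η ⟶ seg (c (Fin.last r)) :=
  ({ f := ⟨fun t => ⟨(Wr.Hom.f φ t).1 - r, by
          have h1 : (Wr.Hom.f φ t).1 < r + 1 + 1 := (Wr.Hom.f φ t).2
          show (Wr.Hom.f φ t).1 - r < 1 + 1
          omega⟩,
       fun s t hst => by
        have h1 : (Wr.Hom.f φ s).1 ≤ (Wr.Hom.f φ t).1 := (Wr.Hom.f φ).monotone hst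
        show (Wr.Hom.f φ s).1 - r ≤ (Wr.Hom.f φ t).1 - r
        omega⟩
     g := fun (i : Fin η.len) (j : Fin 1) hj => Wr.Hom.g φ i (Fin.last r) (by
      have h1 : (Wr.Hom.f φ i.castSucc).1 - r ≤ j.1 := hj.1
      have h2 : j.1 + 1 ≤ (Wr.Hom.f φ i.succ).1 - r := hj.2
      have h3 : j.1 = 0 := by omega
      constructor
      · show (Wr.Hom.f φ i.castSucc).1 ≤ r
        omega
      · show r + 1 ≤ (Wr.Hom.f φ i.succ).1
        omega) } :
    Wr.Hom η (seg (c (Fin.last r))))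

theorem jump_lastMap (j : Fin 1) : Jump (Wr.Hom.f (lastMap' c)) j (Fin.last r) := by
  have hj : j.1 = 0 := by omega
  constructor
  · show r + j.1 ≤ r
    omega
  · show r + 1 ≤ r + (j.1 + 1)
    omega

theorem facL_comp {η : Wr C} (φ : η ⟶ (⟨r + 1, c⟩ : Wr C)) (h : ∀ t, r ≤ (Wr.Hom.f φ t).1) :
    facL c φ h ≫ lastMap' c = φ := by
  have hf : Wr.Hom.f (facL c φ h ≫ lastMap' c) = Wr.Hom.f φ := by
    ext t
    show r + ((Wr.Hom.f φ t).1 - r) = (Wr.Hom.f φ t).1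
    have := h t
    omega
  refine Wr.hom_ext' hf fun i (j : Fin (r + 1)) hj hj' => ?_
  obtain rfl : j = Fin.last r := by
    have h1 : (Wr.Hom.f φ i.castSucc).1 ≤ j.1 := hj'.1
    have h2 := h i.castSucc
    exact Fin.ext (by simp; omega)
  have h1 : Jump (Wr.Hom.f (facL c φ h)) i (0 : Fin 1) := by
    have a1 : (Wr.Hom.f φ i.castSucc).1 ≤ r := hj'.1
    have a2 : r + 1 ≤ (Wr.Hom.f φ i.succ).1 := hj'.2
    constructor
    · show (Wr.Hom.f φ i.castSucc).1 - r ≤ 0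
      omega
    · show 0 + 1 ≤ (Wr.Hom.f φ i.succ).1 - r
      omega
  refine (Wr.comp_g (facL c φ h) (lastMap' c) h1 (jump_lastMap c 0)).trans ?_
  exact Category.comp_id _

theorem lastMap_cancel {η : Wr C} {ψ ψ' : η ⟶ seg (c (Fin.last r))}
    (e : ψ ≫ lastMap' c = ψ' ≫ lastMap' c) : ψ = ψ' := by
  have hf : Wr.Hom.f ψ = Wr.Hom.f ψ' := by
    ext t : 2
    have h1 : r + (Wr.Hom.f ψ t).1 = r + (Wr.Hom.f ψ' t).1 :=
      congrArg (fun u => (Wr.Hom.f u t).1) e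
    exact Fin.ext (by omega)
  refine Wr.hom_ext' hf fun i (j : Fin 1) hj hj' => ?_
  have h2 := jump_lastMap c j
  have e1 := Wr.comp_g ψ (lastMap' c) hj h2
  have e2 := Wr.comp_g ψ' (lastMap' c) hj' h2
  have e3 := g_congr e (hj.comp h2) (hj'.comp h2)
  have a1 : Wr.Hom.g ψ i j hj ≫ Wr.Hom.g (lastMap' c) j (Fin.last r) h2 = Wr.Hom.g ψ i j hj :=
    Category.comp_id _
  have a2 : Wr.Hom.g ψ' i j hj' ≫ Wr.Hom.g (lastMap' c) j (Fin.last r) h2 = Wr.Hom.g ψ' i j hj' :=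
    Category.comp_id _
  rw [a1] at e1
  rw [a2] at e2
  exact e1.symm.trans (e3.trans e2)

theorem facI_cancel {η : Wr C} (ψ : η ⟶ init c)
    (h : ∀ t, (Wr.Hom.f (ψ ≫ initMap c) t).1 ≤ r) : facI c (ψ ≫ initMap c) h = ψ :=
  initMap_cancel c (facI_comp c _ _)

theorem facL_cancel {η : Wr C} (ψ : η ⟶ seg (c (Fin.last r)))
    (h : ∀ t, r ≤ (Wr.Hom.f (ψ ≫ lastMap' c) t).1) : facL c (ψ ≫ lastMap' c) h = ψ :=
  lastMap_cancel c (facL_comp c _ _)

theorem initMap_le (t : Fin ((init c).len + 1)) : (Wr.Hom.f (initMap c) t).1 ≤ r :=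
  Nat.lt_succ_iff.mp t.2

theorem le_lastMap (t : Fin ((seg (c (Fin.last r))).len + 1)) :
    r ≤ (Wr.Hom.f (lastMap' c) t).1 := Nat.le_add_right _ _

theorem mem_init {η : Wr C} (ψ : η ⟶ init c) (k : SimplexCategoryᵒᵖ) :
    (ψ ≫ initMap c : η ⟶ (⟨r + 1, c⟩ : Wr C)) ∈ (binSb c).mem (op η) k :=
  Or.inl fun _ => initMap_le c _

theorem mem_last {η : Wr C} (ψ : η ⟶ seg (c (Fin.last r))) (k : SimplexCategoryᵒᵖ) :
    (ψ ≫ lastMap' c : η ⟶ (⟨r + 1, c⟩ : Wr C)) ∈ (binSb c).mem (op η) k :=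
  Or.inr fun _ => le_lastMap c _

/-- The element of `binSb c` given by a morphism to `[r](c_1, …, c_r)`. -/
def elI {η : (Wr C)ᵒᵖ} (ψ : η.unop ⟶ init c) (k : SimplexCategoryᵒᵖ) :
    ((binSb c).toSP.obj η).obj k :=
  (⟨(ψ ≫ initMap c : η.unop ⟶ (⟨r + 1, c⟩ : Wr C)), mem_init c ψ k⟩ :
    { x : ((rep (⟨r + 1, c⟩ : Wr C)).obj η).obj k // x ∈ (binSb c).mem η k })

/-- The element of `binSb c` given by a morphism to `[1](c_{r+1})`. -/
def elL {η : (Wr C)ᵒᵖ} (ψ : η.unop ⟶ seg (c (Fin.last r))) (k : SimplexCategoryᵒᵖ) :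
    ((binSb c).toSP.obj η).obj k :=
  (⟨(ψ ≫ lastMap' c : η.unop ⟶ (⟨r + 1, c⟩ : Wr C)), mem_last c ψ k⟩ :
    { x : ((rep (⟨r + 1, c⟩ : Wr C)).obj η).obj k // x ∈ (binSb c).mem η k })

theorem el_cases {η : (Wr C)ᵒᵖ} {k : SimplexCategoryᵒᵖ} (x : ((binSb c).toSP.obj η).obj k) :
    (∃ ψ, x = elI c ψ k) ∨ ∃ ψ, x = elL c ψ k := by
  obtain ⟨φ, h | h⟩ := x
  · exact Or.inl ⟨facI c φ h, Subtype.ext (facI_comp c φ h).symm⟩
  · exact Or.inr ⟨facL c φ h, Subtype.ext (facL_comp c φ h).symm⟩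

theorem elI_mapA {η η' : (Wr C)ᵒᵖ} (u : η ⟶ η') (ψ : η.unop ⟶ init c) (k : SimplexCategoryᵒᵖ) :
    ((binSb c).toSP.map u).app k (elI c ψ k) = elI c (u.unop ≫ ψ) k :=
  Subtype.ext (Category.assoc u.unop ψ (initMap c)).symm

theorem elL_mapA {η η' : (Wr C)ᵒᵖ} (u : η ⟶ η') (ψ : η.unop ⟶ seg (c (Fin.last r)))
    (k : SimplexCategoryᵒᵖ) :
    ((binSb c).toSP.map u).app k (elL c ψ k) = elL c (u.unop ≫ ψ) k :=
  Subtype.ext (Category.assoc u.unop ψ (lastMap' c)).symm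

theorem elI_vtx (k : SimplexCategoryᵒᵖ) :
    elI c (η := op Wr.pt) (vtx (init c) (Fin.last r)) k =
      elL c (η := op Wr.pt) (vtx (seg (c (Fin.last r))) 0) k :=
  Subtype.ext (init_last c)

variable (X : SP (Wr C))

/-- Evaluation on the two generators of `binSb c`. -/
def evBin : Mp (binSb c).toSP X ⟶ Fp (X.map (vtx (init c) (Fin.last r)).op)
    (X.map (vtx (seg (c (Fin.last r))) 0).op) where
  app k := ↾ fun (φ : MpS (binSb c).toSP X k.unop) =>
    ⟨(φ.app (op (init c)) k (𝟙 _) (elI c (𝟙 _) k),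
      φ.app (op (seg (c (Fin.last r)))) k (𝟙 _) (elL c (𝟙 _) k)), by
      refine (φ.nat_left (vtx (init c) (Fin.last r)).op k (𝟙 _) (elI c (𝟙 _) k)).symm.trans ?_
      refine Eq.trans ?_ (φ.nat_left (vtx (seg (c (Fin.last r))) 0).op k (𝟙 _) (elL c (𝟙 _) k))
      refine congrArg (φ.app (op Wr.pt) k (𝟙 _)) ?_
      rw [elI_mapA, elL_mapA, Category.comp_id, Category.comp_id]
      exact elI_vtx c k⟩
  naturality k l α := by
    refine ConcreteCategory.hom_ext _ _ fun (φ : MpS (binSb c).toSP X k.unop) => ?_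
    refine Subtype.ext (Prod.ext ?_ ?_)
    · refine Eq.trans ?_ (φ.nat_right (op (init c)) α (𝟙 _) (elI c (𝟙 _) k))
      show φ.app _ l (𝟙 _ ≫ α.unop) _ = φ.app _ l (α.unop ≫ 𝟙 _) _
      rw [Category.id_comp, Category.comp_id]
      rfl
    · refine Eq.trans ?_ (φ.nat_right (op (seg (c (Fin.last r)))) α (𝟙 _) (elL c (𝟙 _) k))
      show φ.app _ l (𝟙 _ ≫ α.unop) _ = φ.app _ l (α.unop ≫ 𝟙 _) _
      rw [Category.id_comp, Category.comp_id]
      rfl

section Glue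

variable {X} {k : SimplexCategoryᵒᵖ} (z : (Fp (X.map (vtx (init c) (Fin.last r)).op)
    (X.map (vtx (seg (c (Fin.last r))) 0).op)).obj k)

open Classical in
/-- The function glued from a simplex over each of the two generators. -/
def gluef (η : (Wr C)ᵒᵖ) (l : SimplexCategoryᵒᵖ) (s : l.unop ⟶ k.unop)
    (x : ((binSb c).toSP.obj η).obj l) : (X.obj η).obj l :=
  if h : ∀ t, (Wr.Hom.f (x.1 : η.unop ⟶ (⟨r + 1, c⟩ : Wr C)) t).1 ≤ r then
    (X.map (facI c x.1 h).op).app l ((X.obj (op (init c))).map s.op z.1.1)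
  else (X.map (facL c x.1 (x.2.resolve_left h)).op).app l
    ((X.obj (op (seg (c (Fin.last r))))).map s.op z.1.2)

theorem gluef_elI (η : (Wr C)ᵒᵖ) (l : SimplexCategoryᵒᵖ) (s : l.unop ⟶ k.unop)
    (ψ : η.unop ⟶ init c) : gluef c z η l s (elI c ψ l) =
      (X.map (Quiver.Hom.op ψ)).app l ((X.obj (op (init c))).map s.op z.1.1) := by
  have h : ∀ t, (Wr.Hom.f (ψ ≫ initMap c) t).1 ≤ r := fun t => initMap_le c _
  refine (dif_pos h).trans ?_
  exact congrArg (fun u => (X.map (Quiver.Hom.op u)).app l _) (facI_cancel c ψ h)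

theorem gluef_elL (η : (Wr C)ᵒᵖ) (l : SimplexCategoryᵒᵖ) (s : l.unop ⟶ k.unop)
    (ψ : η.unop ⟶ seg (c (Fin.last r))) : gluef c z η l s (elL c ψ l) =
      (X.map (Quiver.Hom.op ψ)).app l ((X.obj (op (seg (c (Fin.last r))))).map s.op z.1.2) := by
  by_cases h : ∀ t, (Wr.Hom.f (ψ ≫ lastMap' c) t).1 ≤ r
  · refine (dif_pos h).trans ?_
    have h1 : ∀ t, (Wr.Hom.f ψ t).1 = 0 := fun t => by
      have : r + (Wr.Hom.f ψ t).1 ≤ r := h t
      omega
    have h2 : ψ = Wr.toPt η.unop ≫ vtx (seg (c (Fin.last r))) 0 :=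
      hom_of_const (v := (0 : Fin (1 + 1))) (fun t => Fin.ext (h1 t)) (fun t => rfl)
    have h3 : facI c (ψ ≫ lastMap' c) h = Wr.toPt η.unop ≫ vtx (init c) (Fin.last r) :=
      hom_of_const (v := Fin.last r) (fun t => Fin.ext (by
        show r + (Wr.Hom.f ψ t).1 = r
        rw [h1 t]; rfl)) (fun t => rfl)
    have e1 : (X.map (Quiver.Hom.op (facI c (ψ ≫ lastMap' c) h))).app l
        ((X.obj (op (init c))).map s.op z.1.1) =
        (X.map (Quiver.Hom.op (Wr.toPt η.unop))).app l ((X.obj (op Wr.pt)).map s.op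
          ((X.map (vtx (init c) (Fin.last r)).op).app k z.1.1)) := by
      rw [h3, op_comp, sp_comp, sp_nat]
    have e2 : (X.map (Quiver.Hom.op ψ)).app l
        ((X.obj (op (seg (c (Fin.last r))))).map s.op z.1.2) =
        (X.map (Quiver.Hom.op (Wr.toPt η.unop))).app l ((X.obj (op Wr.pt)).map s.op
          ((X.map (vtx (seg (c (Fin.last r))) 0).op).app k z.1.2)) := by
      rw [h2, op_comp, sp_comp, sp_nat]
    exact e1.trans ((congrArg (fun w => (X.map (Quiver.Hom.op (Wr.toPt η.unop))).app l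
      ((X.obj (op Wr.pt)).map s.op w)) z.2).trans e2.symm)
  · refine (dif_neg h).trans ?_
    exact congrArg (fun u => (X.map (Quiver.Hom.op u)).app l _) (facL_cancel c ψ _)

/-- The simplex of the mapping space glued from a simplex over each of the two generators. -/
def glueS : MpS (binSb c).toSP X k.unop where
  app := gluef c z
  nat_left {η η'} u l s x := by
    rcases el_cases c x with ⟨ψ, rfl⟩ | ⟨ψ, rfl⟩
    · rw [elI_mapA, gluef_elI, gluef_elI]
      exact sp_comp X (Quiver.Hom.op ψ) u _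
    · rw [elL_mapA, gluef_elL, gluef_elL]
      exact sp_comp X (Quiver.Hom.op ψ) u _
  nat_right η l m g s x := by
    rcases el_cases c x with ⟨ψ, rfl⟩ | ⟨ψ, rfl⟩
    · refine (gluef_elI c z η m (g.unop ≫ s) ψ).trans ?_
      rw [gluef_elI]
      refine (congrArg _ (sset_comp _ s.op g z.1.1)).trans ?_
      exact sp_nat X (Quiver.Hom.op ψ) g _
    · refine (gluef_elL c z η m (g.unop ≫ s) ψ).trans ?_
      rw [gluef_elL]
      refine (congrArg _ (sset_comp _ s.op g z.1.2)).trans ?_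
      exact sp_nat X (Quiver.Hom.op ψ) g _

end Glue

/-- `evBin` is an isomorphism. -/
def evBinIso : Mp (binSb c).toSP X ≅ Fp (X.map (vtx (init c) (Fin.last r)).op)
    (X.map (vtx (seg (c (Fin.last r))) 0).op) where
  hom := evBin c X
  inv :=
    { app := fun k => ↾ fun z => (glueS c z : MpS (binSb c).toSP X k.unop)
      naturality := fun k l α => by
        refine ConcreteCategory.hom_ext _ _ fun z => ?_
        refine MpS.ext ?_
        funext η m s x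
        show gluef c _ η m s x = gluef c z η m (s ≫ α.unop) x
        rcases el_cases c x with ⟨ψ, rfl⟩ | ⟨ψ, rfl⟩
        · rw [gluef_elI, gluef_elI]
          exact congrArg _ (sset_comp _ α s.op z.1.1).symm
        · rw [gluef_elL, gluef_elL]
          exact congrArg _ (sset_comp _ α s.op z.1.2).symm }
  hom_inv_id := by
    refine NatTrans.ext (funext fun k => ?_)
    refine ConcreteCategory.hom_ext _ _ fun (φ : MpS (binSb c).toSP X k.unop) => ?_
    refine MpS.ext ?_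
    funext η m s x
    show gluef c ((evBin c X).app k φ) η m s x = φ.app η m s x
    rcases el_cases c x with ⟨ψ, rfl⟩ | ⟨ψ, rfl⟩
    · rw [gluef_elI]
      refine (congrArg ((X.map (Quiver.Hom.op ψ)).app m)
        (φ.nat_right (op (init c)) s.op (𝟙 _) (elI c (𝟙 _) k)).symm).trans ?_
      refine (φ.nat_left (Quiver.Hom.op ψ) m (s.op.unop ≫ 𝟙 _) _).symm.trans ?_
      have e1 : (s.op.unop ≫ 𝟙 k.unop) = s := Category.comp_id s
      rw [e1]
      refine congrArg (φ.app η m s) ?_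
      exact (elI_mapA c (Quiver.Hom.op ψ) (𝟙 _) m).trans
        (congrArg (fun u => elI c u m) (Category.comp_id ψ))
    · rw [gluef_elL]
      refine (congrArg ((X.map (Quiver.Hom.op ψ)).app m)
        (φ.nat_right (op (seg (c (Fin.last r)))) s.op (𝟙 _) (elL c (𝟙 _) k)).symm).trans ?_
      refine (φ.nat_left (Quiver.Hom.op ψ) m (s.op.unop ≫ 𝟙 _) _).symm.trans ?_
      have e1 : (s.op.unop ≫ 𝟙 k.unop) = s := Category.comp_id s
      rw [e1]
      refine congrArg (φ.app η m s) ?_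
      exact (elL_mapA c (Quiver.Hom.op ψ) (𝟙 _) m).trans
        (congrArg (fun u => elL c u m) (Category.comp_id ψ))
  inv_hom_id := by
    refine NatTrans.ext (funext fun k => ?_)
    refine ConcreteCategory.hom_ext _ _ fun z => ?_
    refine Subtype.ext (Prod.ext ?_ ?_)
    · refine (gluef_elI c z (op (init c)) k (𝟙 _) (𝟙 _)).trans ?_
      refine (sp_id X _).trans ?_
      exact sset_id _ _
    · refine (gluef_elL c z (op (seg (c (Fin.last r)))) k (𝟙 _) (𝟙 _)).trans ?_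
      refine (sp_id X _).trans ?_
      exact sset_id _ _

end Init

end

end Pool.Agent.Helper61.FL2
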