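import Pool.Agent.Helper58.FL2.Flag2
import Pool.Agent.Helper88.FL.Htpy
import Pool.Agent.Helper45.FL.Triv
import Pool.Agent.Helper83.FL.MpFibFinal
import Pool.Agent.Helper94.FL.Path
import Pool.Agent.Helper46.FL.PreHo

/-!
Project FL2, auxiliary facts on products of simplicial sets.
-/

open CategoryTheory MonoidalCategory CartesianMonoidalCategory Simplicial Opposite
  HomotopicalAlgebra SSet.modelCategoryQuillen

set_option autoImplicit false

namespace Pool.Agent.Helper61.FL2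

open _root_.FL

section

variable {X Y X' Y' Z : SSet.{0}}

theorem kan_tensor (hX : SSet.KanComplex X) (hY : SSet.KanComplex Y) :
    SSet.KanComplex (X ⊗ Y) := by
  refine Pool.Agent.Helper94.FL.kan_of_fill fun n i t => ?_
  obtain ⟨a, ha⟩ := Pool.Agent.Helper94.FL.fill_of_kan hX n i (t ≫ fst _ _)
  obtain ⟨b, hb⟩ := Pool.Agent.Helper94.FL.fill_of_kan hY n i (t ≫ snd _ _)
  refine ⟨lift a b, ?_⟩
  refine CartesianMonoidalCategory.hom_ext _ _ ?_ ?_
  · rw [Category.assoc, lift_fst, ha]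
  · rw [Category.assoc, lift_snd, hb]

theorem fst_kanFib (hY : SSet.KanComplex Y) : KanFib (fst X Y) := by
  intro n i
  refine ⟨fun {t b} sq => ?_⟩
  obtain ⟨c, hc⟩ := Pool.Agent.Helper94.FL.fill_of_kan hY n i (t ≫ snd _ _)
  refine ⟨⟨{ l := lift b c, fac_left := ?_, fac_right := lift_fst _ _ }⟩⟩
  refine CartesianMonoidalCategory.hom_ext _ _ ?_ ?_
  · rw [Category.assoc, lift_fst, sq.w]
  · rw [Category.assoc, lift_snd, hc]

theorem snd_kanFib (hX : SSet.KanComplex X) : KanFib (snd X Y) := by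
  intro n i
  refine ⟨fun {t b} sq => ?_⟩
  obtain ⟨c, hc⟩ := Pool.Agent.Helper94.FL.fill_of_kan hX n i (t ≫ fst _ _)
  refine ⟨⟨{ l := lift c b, fac_left := ?_, fac_right := lift_snd _ _ }⟩⟩
  refine CartesianMonoidalCategory.hom_ext _ _ ?_ ?_
  · rw [Category.assoc, lift_fst, hc]
  · rw [Category.assoc, lift_snd, sq.w]

theorem kanFib_comp {p : X ⟶ Y} {q : Y ⟶ Z} (hp : KanFib p) (hq : KanFib q) :
    KanFib (p ≫ q) := by
  rw [Pool.Agent.Helper83.FL4.kanFib_iff] at hp hq ⊢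
  infer_instance

theorem kanFib_of_isIso (p : X ⟶ Y) [IsIso p] : KanFib p := by
  intro n i
  refine ⟨fun {t b} sq => ?_⟩
  exact ⟨⟨{ l := b ≫ inv p, fac_left := by rw [← Category.assoc, ← sq.w, Category.assoc,
              IsIso.hom_inv_id, Category.comp_id],
            fac_right := by rw [Category.assoc, IsIso.inv_hom_id, Category.comp_id] }⟩⟩

theorem htpy_tensor {f f' : X ⟶ X'} {g g' : Y ⟶ Y'} (h : Htpy f f') (h' : Htpy g g') :
    Htpy (f ⊗ₘ g) (f' ⊗ₘ g') := by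
  obtain ⟨H, a, b⟩ := Pool.Agent.Helper45.FL2.htpy_elim h
  obtain ⟨H', a', b'⟩ := Pool.Agent.Helper45.FL2.htpy_elim h'
  refine Pool.Agent.Helper45.FL2.htpy_mk
    (lift ((fst X Y) ▷ Δ[1] ≫ H) ((snd X Y) ▷ Δ[1] ≫ H')) ?_ ?_
  · refine CartesianMonoidalCategory.hom_ext _ _ ?_ ?_
    · rw [Category.assoc, lift_fst, ← Category.assoc, Pool.Agent.Helper45.FL2.ι₀_nat,
        Category.assoc, a, tensorHom_fst]
    · rw [Category.assoc, lift_snd, ← Category.assoc, Pool.Agent.Helper45.FL2.ι₀_nat,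
        Category.assoc, a', tensorHom_snd]
  · refine CartesianMonoidalCategory.hom_ext _ _ ?_ ?_
    · rw [Category.assoc, lift_fst, ← Category.assoc, Pool.Agent.Helper45.FL2.ι₁_nat,
        Category.assoc, b, tensorHom_fst]
    · rw [Category.assoc, lift_snd, ← Category.assoc, Pool.Agent.Helper45.FL2.ι₁_nat,
        Category.assoc, b', tensorHom_snd]

theorem hoEq_tensor {f : X ⟶ X'} {g : Y ⟶ Y'} (hf : HoEq f) (hg : HoEq g) :
    HoEq (f ⊗ₘ g) := by
  obtain ⟨f', h1, h2⟩ := hf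
  obtain ⟨g', h3, h4⟩ := hg
  refine ⟨f' ⊗ₘ g', ?_, ?_⟩
  · have := htpy_tensor (f := f ≫ f') (f' := 𝟙 X) (g := g ≫ g') (g' := 𝟙 Y) h1 h3
    rwa [← tensorHom_comp_tensorHom, id_tensorHom_id] at this
  · have := htpy_tensor (f := f' ≫ f) (f' := 𝟙 X') (g := g' ≫ g) (g' := 𝟙 Y') h2 h4
    rwa [← tensorHom_comp_tensorHom, id_tensorHom_id] at this

end

end Pool.Agent.Helper61.FL2
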